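import Pool.Agent.Q276.CD.Stm2
import Pool.Agent.W184.Avg

set_option autoImplicit false

/-! Job SH of project CD: moving the line of integration. -/

namespace Pool.Agent.Q178.CD

open MeasureTheory Filter Topology Pool.Agent.Q276.CD Pool.Agent.W184

lemma KP_even (Δ w : ℝ) : KP Δ (-w) = KP Δ w := by
  unfold KP; rw [neg_sq]

lemma KP_le_inv {Δ : ℝ} (h0 : 0 < Δ) (h1 : Δ ≤ 1) {V w : ℝ} (hV : 0 < V) (hw : V ≤ |w|) :
    KP Δ w ≤ 1 / (Real.pi * V ^ 2) := by
  have hpi := Real.pi_pos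
  unfold KP
  rw [div_div, div_le_div_iff₀ (by positivity) (by positivity)]
  have h2 : V ^ 2 ≤ w ^ 2 := by
    rw [← sq_abs w]
    exact pow_le_pow_left₀ hV.le hw 2
  have h3 : Δ * (Real.pi * V ^ 2) ≤ 1 * (Real.pi * w ^ 2) := by gcongr
  have h4 : 0 ≤ Real.pi * Δ ^ 2 := by positivity
  nlinarith

lemma g_int {g : ℝ → ℝ} (hg : Continuous g) (a b : ℝ) : IntervalIntegrable g volume a b :=
  hg.intervalIntegrable a b

/-- the tail of the Poisson integral -/
lemma tail_bound {g : ℝ → ℝ} (hg : Continuous g) (hg0 : ∀ u, 0 ≤ g u) {M : ℝ} (hgM : ∀ u, g u ≤ M)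
    {K U t Δ : ℝ} (hU : 0 < U) (hΔ : 0 < Δ) (hΔ1 : Δ ≤ 1)
    (hG : ∀ R : ℝ, U ≤ R → ∫ u in (t - R)..(t + R), g u ≤ K * R) :
    ∫ w : ℝ, KP Δ w * g (t + w) ≤ (∫ w in (-U)..U, KP Δ w * g (t + w)) + 4 * K / (Real.pi * U) := by
  have hpi := Real.pi_pos
  have hK : 0 ≤ K := by
    have h1 := hG U le_rfl
    have h2 : 0 ≤ ∫ u in (t - U)..(t + U), g u :=
      intervalIntegral.integral_nonneg (by linarith) fun u _ => hg0 u
    have h3 : 0 ≤ K * U := h2.trans h1
    exact nonneg_of_mul_nonneg_left h3 hU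
  set f : ℝ → ℝ := fun w => KP Δ w * g (t + w) with hf
  have hKc := KP_cont hΔ
  have hfc : Continuous f := by
    simp only [hf]
    exact hKc.mul (hg.comp (continuous_const.add continuous_id))
  have hfi : Integrable f := by
    refine (KP_int hΔ).1.mul_bdd (c := M) ?_ ?_
    · exact (hg.comp (continuous_const.add continuous_id)).aestronglyMeasurable
    · refine Eventually.of_forall fun w => ?_
      rw [Real.norm_of_nonneg (hg0 _)]
      exact hgM _
  set V : ℕ → ℝ := fun N => 2 ^ N * U with hV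
  have hVt : Tendsto V atTop atTop := by
    simp only [hV]
    exact (tendsto_pow_atTop_atTop_of_one_lt (by norm_num : (1:ℝ) < 2)).atTop_mul_const hU
  have hlim : Tendsto (fun N => ∫ w in (-(V N))..(V N), f w) atTop (𝓝 (∫ w, f w)) :=
    intervalIntegral_tendsto_integral hfi (tendsto_neg_atTop_atBot.comp hVt) hVt
  have hb : ∀ N : ℕ, ∫ w in (-(V N))..(V N), f w ≤
      (∫ w in (-U)..U, f w) + 4 * K / (Real.pi * U) * (1 - (1 / 2) ^ N) := by
    intro N
    induction N with
    | zero => simp [hV]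
    | succ N ih =>
      have hVN : 0 < V N := by simp only [hV]; positivity
      have hVU : U ≤ V N := by
        simp only [hV]
        have : (1:ℝ) ≤ 2 ^ N := one_le_pow₀ (by norm_num)
        nlinarith
      have hV1 : V (N + 1) = 2 * V N := by simp only [hV]; ring
      rw [hV1]
      set v := V N with hv
      have hii : ∀ a b : ℝ, IntervalIntegrable f volume a b := fun a b => hfc.intervalIntegrable a b
      have hgi : ∀ a b : ℝ, IntervalIntegrable g volume a b := fun a b => hg.intervalIntegrable a b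
      have e1 : ∫ w in (-(2 * v))..(2 * v), f w = (∫ w in (-(2 * v))..(-v), f w) + (∫ w in (-v)..v, f w) +
          ∫ w in v..(2 * v), f w := by
        rw [intervalIntegral.integral_add_adjacent_intervals (hii _ _) (hii _ _),
          intervalIntegral.integral_add_adjacent_intervals (hii _ _) (hii _ _)]
      have key : ∀ a b : ℝ, a ≤ b → (∀ w ∈ Set.Icc a b, v ≤ |w|) →
          ∫ w in a..b, f w ≤ 1 / (Real.pi * v ^ 2) * ∫ u in (t + a)..(t + b), g u := by
        intro a b hab hw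
        have h1 : ∫ u in (t + a)..(t + b), g u = ∫ w in a..b, g (t + w) := by
          rw [intervalIntegral.integral_comp_add_left (fun u => g u)]
        rw [h1, ← intervalIntegral.integral_const_mul]
        refine intervalIntegral.integral_mono_on hab (hii _ _) ?_ ?_
        · apply Continuous.intervalIntegrable
          exact continuous_const.mul (hg.comp (continuous_const.add continuous_id))
        · intro w hw'
          exact mul_le_mul_of_nonneg_right (KP_le_inv hΔ hΔ1 hVN (hw w hw')) (hg0 _)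
      have k1 := key (-(2 * v)) (-v) (by linarith) (fun w hw => by
        rw [abs_of_nonpos (by linarith [hw.2])]; linarith [hw.2])
      have k2 := key v (2 * v) (by linarith) (fun w hw => by
        rw [abs_of_nonneg (by linarith [hw.1])]; exact hw.1)
      have e2 : (∫ u in (t + -(2 * v))..(t + -v), g u) + (∫ u in (t + v)..(t + 2 * v), g u) ≤
          ∫ u in (t - 2 * v)..(t + 2 * v), g u := by
        have h3 : ∫ u in (t - 2 * v)..(t + 2 * v), g u = (∫ u in (t - 2 * v)..(t + -v), g u) +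
            (∫ u in (t + -v)..(t + v), g u) + ∫ u in (t + v)..(t + 2 * v), g u := by
          rw [intervalIntegral.integral_add_adjacent_intervals (hgi _ _) (hgi _ _),
            intervalIntegral.integral_add_adjacent_intervals (hgi _ _) (hgi _ _)]
        have h4 : 0 ≤ ∫ u in (t + -v)..(t + v), g u :=
          intervalIntegral.integral_nonneg (by linarith) fun u _ => hg0 u
        rw [h3, show t + -(2 * v) = t - 2 * v by ring]
        linarith
      have h5 := hG (2 * v) (by linarith)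
      have h6 : (∫ w in (-(2 * v))..(-v), f w) + (∫ w in v..(2 * v), f w) ≤
          1 / (Real.pi * v ^ 2) * (K * (2 * v)) := by
        have h7 : 0 ≤ 1 / (Real.pi * v ^ 2) := by positivity
        have h8 := mul_le_mul_of_nonneg_left (e2.trans h5) h7
        rw [mul_add] at h8
        linarith
      have h9 : 1 / (Real.pi * v ^ 2) * (K * (2 * v)) =
          4 * K / (Real.pi * U) * (1 - (1 / 2) ^ (N + 1)) - 4 * K / (Real.pi * U) * (1 - (1 / 2) ^ N) := by
        rw [hv]
        simp only [hV]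
        have h10 : (2:ℝ) ^ N ≠ 0 := by positivity
        rw [one_div, one_div, inv_pow, inv_pow]
        field_simp
        ring
      rw [e1]
      linarith
  refine le_of_tendsto' hlim fun N => (hb N).trans ?_
  have h11 : 0 ≤ 4 * K / (Real.pi * U) := by positivity
  have h12 : (0:ℝ) ≤ (1 / 2) ^ N := by positivity
  nlinarith

/-- averaging the Poisson integral -/
lemma avg_bound {g : ℝ → ℝ} (hg : Continuous g) (hg0 : ∀ u, 0 ≤ g u) {M : ℝ} (hgM : ∀ u, g u ≤ M)
    {K T Δ : ℝ} (hT : 0 < T) (hΔ : 0 < Δ) (hΔ1 : Δ ≤ 1)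
    (hG : ∀ t ∈ Set.Icc (T / 2) (4 * T), ∀ R : ℝ, T / 4 ≤ R → ∫ u in (t - R)..(t + R), g u ≤ K * R)
    (h : ℝ → ℝ) (hh : Continuous h) (hle : ∀ t, h t ≤ ∫ w : ℝ, KP Δ w * g (t + w)) :
    ∫ t in (T / 2)..(4 * T), h t ≤ (∫ u in (T / 4)..(8 * T), g u) + 20 * K := by
  have hpi := Real.pi_pos
  have hpi3 := Real.pi_gt_three
  have hU : 0 < T / 4 := by positivity
  have hK : 0 ≤ K := by
    have h1 := hG T ⟨by linarith, by linarith⟩ (T / 4) le_rfl
    have h2 : 0 ≤ ∫ u in (T - T / 4)..(T + T / 4), g u :=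
      intervalIntegral.integral_nonneg (by linarith) fun u _ => hg0 u
    exact nonneg_of_mul_nonneg_left (h2.trans h1) hU
  have hKc := KP_cont hΔ
  set J := ∫ u in (T / 4)..(8 * T), g u with hJ
  have hc : Continuous (Function.uncurry fun (t w : ℝ) => KP Δ w * g (t + w)) := by
    have h1 : Continuous (fun p : ℝ × ℝ => KP Δ p.2 * g (p.1 + p.2)) :=
      (hKc.comp continuous_snd).mul (hg.comp (continuous_fst.add continuous_snd))
    exact h1
  have hc' : Continuous (Function.uncurry fun (w t : ℝ) => KP Δ w * g (t + w)) := hc.comp continuous_swap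
  have h1 : ∫ t in (T / 2)..(4 * T), h t ≤ ∫ t in (T / 2)..(4 * T),
      ((∫ w in (-(T / 4))..(T / 4), KP Δ w * g (t + w)) + 4 * K / (Real.pi * (T / 4))) := by
    refine intervalIntegral.integral_mono_on (by linarith) (hh.intervalIntegrable _ _) ?_ ?_
    · apply Continuous.intervalIntegrable
      exact (intervalIntegral.continuous_parametric_intervalIntegral_of_continuous' hc _ _).add continuous_const
    · intro t ht
      exact (hle t).trans (tail_bound hg hg0 hgM hU hΔ hΔ1 (hG t ht))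
  have h2 : ∫ t in (T / 2)..(4 * T),
      ((∫ w in (-(T / 4))..(T / 4), KP Δ w * g (t + w)) + 4 * K / (Real.pi * (T / 4))) =
      (∫ t in (T / 2)..(4 * T), ∫ w in (-(T / 4))..(T / 4), KP Δ w * g (t + w)) +
        (4 * T - T / 2) * (4 * K / (Real.pi * (T / 4))) := by
    rw [intervalIntegral.integral_add, intervalIntegral.integral_const, smul_eq_mul]
    · apply Continuous.intervalIntegrable
      exact intervalIntegral.continuous_parametric_intervalIntegral_of_continuous' hc _ _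
    · simp
  have h3 : ∫ t in (T / 2)..(4 * T), ∫ w in (-(T / 4))..(T / 4), KP Δ w * g (t + w) =
      ∫ w in (-(T / 4))..(T / 4), ∫ t in (T / 2)..(4 * T), KP Δ w * g (t + w) := by
    apply intervalIntegral_intervalIntegral_swap
    have hcpt : IsCompact (Set.uIcc (T / 2) (4 * T) ×ˢ Set.uIcc (-(T / 4)) (T / 4)) :=
      isCompact_uIcc.prod isCompact_uIcc
    exact (hc.continuousOn.integrableOn_compact hcpt).mono_set
      (Set.prod_mono Set.uIoc_subset_uIcc Set.uIoc_subset_uIcc)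
  have h4 : ∫ w in (-(T / 4))..(T / 4), ∫ t in (T / 2)..(4 * T), KP Δ w * g (t + w) ≤
      ∫ w in (-(T / 4))..(T / 4), KP Δ w * J := by
    refine intervalIntegral.integral_mono_on (by linarith) ?_ ?_ ?_
    · apply Continuous.intervalIntegrable
      exact intervalIntegral.continuous_parametric_intervalIntegral_of_continuous' hc' _ _
    · apply Continuous.intervalIntegrable
      exact hKc.mul continuous_const
    · intro w hw
      rw [intervalIntegral.integral_const_mul]
      refine mul_le_mul_of_nonneg_left ?_ (KP_nonneg hΔ w)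
      rw [intervalIntegral.integral_comp_add_right (fun u => g u)]
      rw [hJ]
      refine intervalIntegral.integral_mono_interval (by linarith [hw.1]) (by linarith) (by linarith [hw.2])
        (Eventually.of_forall fun u => hg0 u) (hg.intervalIntegrable _ _)
  have h5 : ∫ w in (-(T / 4))..(T / 4), KP Δ w * J ≤ J := by
    rw [intervalIntegral.integral_mul_const]
    have hJ0 : 0 ≤ J := intervalIntegral.integral_nonneg (by linarith) fun u _ => hg0 u
    have h6 : ∫ w in (-(T / 4))..(T / 4), KP Δ w ≤ 1 := by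
      rw [intervalIntegral.integral_of_le (by linarith), ← (KP_int hΔ).2]
      exact setIntegral_le_integral (KP_int hΔ).1 (Eventually.of_forall fun w => KP_nonneg hΔ w)
    nlinarith
  have h7 : (4 * T - T / 2) * (4 * K / (Real.pi * (T / 4))) ≤ 20 * K := by
    have h8 : (4 * T - T / 2) * (4 * K / (Real.pi * (T / 4))) = 56 * K / Real.pi := by
      field_simp
      ring
    rw [h8, div_le_iff₀ hpi]
    nlinarith
  rw [h2, h3] at h1
  linarith

lemma Dp_diff (a : ℕ → ℂ) (Y : ℕ) : Differentiable ℂ (Dp a Y) := by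
  unfold Dp
  refine Differentiable.fun_sum fun n hn => ?_
  have hn0 : (n : ℂ) ≠ 0 := by
    have := (Finset.mem_Icc.1 hn).1
    exact_mod_cast (by omega : n ≠ 0)
  exact (differentiable_id.neg.const_cpow (Or.inl hn0)).const_mul _

lemma norm_term {n : ℕ} (hn : 1 ≤ n) (s : ℂ) : ‖(n : ℂ) ^ (-s)‖ = Real.exp (-(s.re * Real.log n)) := by
  have hn0 : (0:ℝ) < n := by exact_mod_cast hn
  rw [Complex.norm_natCast_cpow_of_pos (by omega), Real.rpow_def_of_pos hn0]
  congr 1
  simp
  ring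

lemma Dp_bound (a : ℕ → ℂ) (Y : ℕ) (t : ℝ) : ‖Dp a Y (cl t)‖ ≤ ∑ n ∈ Finset.Icc 1 Y, ‖a n‖ := by
  unfold Dp
  refine (norm_sum_le _ _).trans (Finset.sum_le_sum fun n hn => ?_)
  have hn1 := (Finset.mem_Icc.1 hn).1
  rw [norm_mul, norm_term hn1]
  have h1 : (cl t).re = 1 / 2 := by simp [cl]
  rw [h1]
  have h2 : 0 ≤ Real.log n := Real.log_natCast_nonneg n
  have h3 : Real.exp (-(1 / 2 * Real.log n)) ≤ 1 := by
    rw [Real.exp_le_one_iff]; linarith
  exact mul_le_of_le_one_right (norm_nonneg _) h3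

lemma right_shift {a : ℕ → ℂ} {y Y : ℕ} (hy : 1 ≤ y) (ha : ∀ n, n < y → a n = 0) {Δ : ℝ} (hΔ : 0 < Δ) (t : ℝ) :
    (y : ℝ) ^ (2 * Δ) * ‖Dp a Y (cl t + Δ)‖ ^ 2 ≤ ∫ w : ℝ, KP Δ w * ‖Dp a Y (cl (t + w))‖ ^ 2 := by
  have hy0 : (0:ℝ) < y := by exact_mod_cast hy
  set F : ℂ → ℂ := fun z => Complex.exp (z * Real.log y) * Dp a Y (1 / 2 + z) with hF
  have hFd : Differentiable ℂ F := by
    have h1 := Dp_diff a Y
    simp only [hF]
    fun_prop
  have hb : ∀ z : ℂ, 0 < z.re → ‖F z‖ ≤ ∑ n ∈ Finset.Icc 1 Y, ‖a n‖ := by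
    intro z hz
    simp only [hF, Dp]
    rw [Finset.mul_sum]
    refine (norm_sum_le _ _).trans (Finset.sum_le_sum fun n hn => ?_)
    have hn1 := (Finset.mem_Icc.1 hn).1
    by_cases hny : n < y
    · rw [ha n hny]; simp
    push Not at hny
    rw [norm_mul, norm_mul, norm_term hn1, Complex.norm_exp]
    have e1 : (z * Real.log y).re = z.re * Real.log y := by
      rw [Complex.re_mul_ofReal]
    have e2 : ((1 / 2 + z : ℂ)).re = 1 / 2 + z.re := by simp
    rw [e1, e2]
    have h1 : Real.log y ≤ Real.log n := Real.log_le_log hy0 (by exact_mod_cast hny)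
    have h2 : 0 ≤ Real.log n := Real.log_natCast_nonneg n
    have h3 : Real.exp (z.re * Real.log y) * Real.exp (-((1 / 2 + z.re) * Real.log n)) ≤ 1 := by
      rw [← Real.exp_add, Real.exp_le_one_iff]
      nlinarith
    calc Real.exp (z.re * Real.log y) * (‖a n‖ * Real.exp (-((1 / 2 + z.re) * Real.log n))) =
        ‖a n‖ * (Real.exp (z.re * Real.log y) * Real.exp (-((1 / 2 + z.re) * Real.log n))) := by ring
      _ ≤ ‖a n‖ * 1 := by gcongr
      _ = _ := mul_one _
  have h := hp_ineq (F := F) (b := 0) (t := t) (p := 2) hΔ (by norm_num) hFd.differentiableOn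
    hFd.continuous.continuousOn (fun z hz => hb z hz)
  have e3 : ‖F (((0:ℝ) : ℂ) + Δ + t * Complex.I)‖ ^ (2:ℝ) = (y : ℝ) ^ (2 * Δ) * ‖Dp a Y (cl t + Δ)‖ ^ 2 := by
    simp only [hF]
    rw [norm_mul, Complex.norm_exp]
    have e1 : ((((0:ℝ) : ℂ) + Δ + t * Complex.I) * Real.log y).re = Δ * Real.log y := by
      rw [Complex.re_mul_ofReal]; simp
    have e2 : (1 / 2 + (((0:ℝ) : ℂ) + Δ + t * Complex.I) : ℂ) = cl t + Δ := by
      unfold cl; push_cast; ring
    rw [e1, e2, Real.rpow_two, mul_pow]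
    congr 1
    rw [← Real.exp_nat_mul, Real.rpow_def_of_pos hy0]
    congr 1
    push_cast
    ring
  rw [e3] at h
  refine h.trans (le_of_eq ?_)
  refine integral_congr_ae (Eventually.of_forall fun w => ?_)
  simp only [hF]
  congr 1
  rw [norm_mul, Complex.norm_exp, Real.rpow_two]
  have e1 : ((((0:ℝ) : ℂ) + ((t + w : ℝ) : ℂ) * Complex.I) * Real.log y).re = 0 := by
    rw [Complex.re_mul_ofReal]; simp
  have e2 : (1 / 2 + (((0:ℝ) : ℂ) + ((t + w : ℝ) : ℂ) * Complex.I) : ℂ) = cl (t + w) := by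
    unfold cl; push_cast; ring
  rw [e1, e2, Real.exp_zero, one_mul]

lemma left_shift {a : ℕ → ℂ} {Y : ℕ} (hY : 1 ≤ Y) {Δ : ℝ} (hΔ : 0 < Δ) (t : ℝ) :
    (Y : ℝ) ^ (-(2 * Δ)) * ‖Dp a Y (cl t - Δ)‖ ^ 2 ≤ ∫ w : ℝ, KP Δ w * ‖Dp a Y (cl (t + w))‖ ^ 2 := by
  have hY0 : (0:ℝ) < Y := by exact_mod_cast hY
  set F : ℂ → ℂ := fun z => Complex.exp (-(z * Real.log Y)) * Dp a Y (1 / 2 - z) with hF
  have hFd : Differentiable ℂ F := by
    have h1 := Dp_diff a Y
    simp only [hF]
    fun_prop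
  have hb : ∀ z : ℂ, 0 < z.re → ‖F z‖ ≤ ∑ n ∈ Finset.Icc 1 Y, ‖a n‖ := by
    intro z hz
    simp only [hF, Dp]
    rw [Finset.mul_sum]
    refine (norm_sum_le _ _).trans (Finset.sum_le_sum fun n hn => ?_)
    have hn1 := (Finset.mem_Icc.1 hn).1
    have hnY := (Finset.mem_Icc.1 hn).2
    have hn0 : (0:ℝ) < n := by exact_mod_cast hn1
    rw [norm_mul, norm_mul, norm_term hn1, Complex.norm_exp]
    have e1 : (-(z * Real.log Y)).re = -(z.re * Real.log Y) := by
      rw [Complex.neg_re, Complex.re_mul_ofReal]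
    have e2 : ((1 / 2 - z : ℂ)).re = 1 / 2 - z.re := by simp
    rw [e1, e2]
    have h1 : Real.log n ≤ Real.log Y := Real.log_le_log hn0 (by exact_mod_cast hnY)
    have h2 : 0 ≤ Real.log n := Real.log_natCast_nonneg n
    have h3 : Real.exp (-(z.re * Real.log Y)) * Real.exp (-((1 / 2 - z.re) * Real.log n)) ≤ 1 := by
      rw [← Real.exp_add, Real.exp_le_one_iff]
      nlinarith
    calc Real.exp (-(z.re * Real.log Y)) * (‖a n‖ * Real.exp (-((1 / 2 - z.re) * Real.log n))) =
        ‖a n‖ * (Real.exp (-(z.re * Real.log Y)) * Real.exp (-((1 / 2 - z.re) * Real.log n))) := by ring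
      _ ≤ ‖a n‖ * 1 := by gcongr
      _ = _ := mul_one _
  have h := hp_ineq (F := F) (b := 0) (t := -t) (p := 2) hΔ (by norm_num) hFd.differentiableOn
    hFd.continuous.continuousOn (fun z hz => hb z hz)
  have e3 : ‖F (((0:ℝ) : ℂ) + Δ + ((-t : ℝ) : ℂ) * Complex.I)‖ ^ (2:ℝ) =
      (Y : ℝ) ^ (-(2 * Δ)) * ‖Dp a Y (cl t - Δ)‖ ^ 2 := by
    simp only [hF]
    rw [norm_mul, Complex.norm_exp]
    have e1 : (-((((0:ℝ) : ℂ) + Δ + ((-t : ℝ) : ℂ) * Complex.I) * Real.log Y)).re = -(Δ * Real.log Y) := by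
      rw [Complex.neg_re, Complex.re_mul_ofReal]; simp
    have e2 : (1 / 2 - (((0:ℝ) : ℂ) + Δ + ((-t : ℝ) : ℂ) * Complex.I) : ℂ) = cl t - Δ := by
      unfold cl; push_cast; ring
    rw [e1, e2, Real.rpow_two, mul_pow]
    congr 1
    rw [← Real.exp_nat_mul, Real.rpow_def_of_pos hY0]
    congr 1
    push_cast
    ring
  rw [e3] at h
  refine h.trans (le_of_eq ?_)
  rw [← integral_neg_eq_self]
  refine integral_congr_ae (Eventually.of_forall fun w => ?_)
  simp only [hF]
  rw [KP_even]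
  congr 1
  rw [norm_mul, Complex.norm_exp, Real.rpow_two]
  have e1 : (-((((0:ℝ) : ℂ) + ((-t + -w : ℝ) : ℂ) * Complex.I) * Real.log Y)).re = 0 := by
    rw [Complex.neg_re, Complex.re_mul_ofReal]; simp
  have e2 : (1 / 2 - (((0:ℝ) : ℂ) + ((-t + -w : ℝ) : ℂ) * Complex.I) : ℂ) = cl (t + w) := by
    unfold cl; push_cast; ring
  rw [e1, e2, Real.exp_zero, one_mul]

theorem t_SH : P_SH := by
  intro a y Y T Δ hT hy hyY ha hΔ hΔ1 hG
  have hT0 : 0 < T := by linarith
  have hy0 : (0:ℝ) < y := by exact_mod_cast hy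
  have hY0 : (0:ℝ) < Y := by exact_mod_cast (by omega : 0 < Y)
  have hclc : Continuous cl := by unfold cl; fun_prop
  have hDc := (Dp_diff a Y).continuous
  have hg : Continuous fun u : ℝ => ‖Dp a Y (cl u)‖ ^ 2 := (hDc.comp hclc).norm.pow 2
  have hg0 : ∀ u : ℝ, 0 ≤ ‖Dp a Y (cl u)‖ ^ 2 := fun u => by positivity
  have hgM : ∀ u : ℝ, ‖Dp a Y (cl u)‖ ^ 2 ≤ (∑ n ∈ Finset.Icc 1 Y, ‖a n‖) ^ 2 := fun u =>
    pow_le_pow_left₀ (norm_nonneg _) (Dp_bound a Y u) 2
  constructor
  · have hc1 : Continuous fun t : ℝ => (y : ℝ) ^ (2 * Δ) * ‖Dp a Y (cl t + Δ)‖ ^ 2 :=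
      continuous_const.mul ((hDc.comp (hclc.add continuous_const)).norm.pow 2)
    have h := avg_bound hg hg0 hgM hT0 hΔ hΔ1 hG _ hc1 (fun t => right_shift hy ha hΔ t)
    rw [intervalIntegral.integral_const_mul] at h
    have e1 : (y : ℝ) ^ (-(2 * Δ)) * (y : ℝ) ^ (2 * Δ) = 1 := by
      rw [← Real.rpow_add hy0]; simp
    have h2 := mul_le_mul_of_nonneg_left h (Real.rpow_nonneg hy0.le (-(2 * Δ)))
    rw [← mul_assoc, e1, one_mul] at h2
    exact h2
  · have hc1 : Continuous fun t : ℝ => (Y : ℝ) ^ (-(2 * Δ)) * ‖Dp a Y (cl t - Δ)‖ ^ 2 :=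
      continuous_const.mul ((hDc.comp (hclc.sub continuous_const)).norm.pow 2)
    have h := avg_bound hg hg0 hgM hT0 hΔ hΔ1 hG _ hc1 (fun t => left_shift (by omega) hΔ t)
    rw [intervalIntegral.integral_const_mul] at h
    have e1 : (Y : ℝ) ^ (2 * Δ) * (Y : ℝ) ^ (-(2 * Δ)) = 1 := by
      rw [← Real.rpow_add hY0]; simp
    have h2 := mul_le_mul_of_nonneg_left h (Real.rpow_nonneg hY0.le (2 * Δ))
    rw [← mul_assoc, e1, one_mul] at h2
    exact h2

end Pool.Agent.Q178.CD
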