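import Pool.Agent.Q276.CD.Stm2

set_option autoImplicit false

/-! Job CIR of project CD: suprema over the disc of radius `8` on average. -/

namespace Pool.Agent.Q178.CD

open MeasureTheory Pool.Agent.Q276.CD

lemma cauchy_bound {f : ℂ → ℂ} (hf : Differentiable ℂ f) {z : ℂ} (hz : ‖z‖ ≤ 8) :
    ‖f z‖ ≤ 9 * ((2 * Real.pi)⁻¹ * ∫ θ in (0:ℝ)..(2 * Real.pi), ‖f (circleMap 0 9 θ)‖) := by
  have hzb : z ∈ Metric.ball (0 : ℂ) 9 := by
    rw [Metric.mem_ball, dist_zero_right]; linarith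
  have hd : DiffContOnCl ℂ f (Metric.ball 0 9) := hf.diffContOnCl
  have h1 := hd.two_pi_i_inv_smul_circleIntegral_sub_inv_smul hzb
  rw [← h1, norm_smul, circleIntegral]
  have hpi := Real.pi_pos
  have e1 : ‖(2 * (Real.pi : ℂ) * Complex.I)⁻¹‖ = (2 * Real.pi)⁻¹ := by
    rw [norm_inv, norm_mul, norm_mul, Complex.norm_I, mul_one, Complex.norm_real, Complex.norm_ofNat,
      Real.norm_of_nonneg hpi.le]
  rw [e1]
  have h2 : ‖∫ θ in (0:ℝ)..(2 * Real.pi), deriv (circleMap 0 9) θ • ((circleMap 0 9 θ - z)⁻¹ • f (circleMap 0 9 θ))‖ ≤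
      ∫ θ in (0:ℝ)..(2 * Real.pi), 9 * ‖f (circleMap 0 9 θ)‖ := by
    refine intervalIntegral.norm_integral_le_of_norm_le (by positivity) ?_ ?_
    · refine Filter.Eventually.of_forall fun θ _ => ?_
      rw [norm_smul, norm_smul, deriv_circleMap, norm_mul, Complex.norm_I, mul_one, norm_circleMap_zero]
      have h3 : ‖(circleMap 0 9 θ - z)⁻¹‖ ≤ 1 := by
        rw [norm_inv]
        apply inv_le_one_of_one_le₀
        have h4 := norm_sub_norm_le (circleMap 0 9 θ) z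
        rw [norm_circleMap_zero] at h4
        have : |(9:ℝ)| = 9 := abs_of_pos (by norm_num)
        rw [this] at h4
        linarith
      have : |(9:ℝ)| = 9 := abs_of_pos (by norm_num)
      rw [this]
      calc 9 * (‖(circleMap 0 9 θ - z)⁻¹‖ * ‖f (circleMap 0 9 θ)‖) ≤ 9 * (1 * ‖f (circleMap 0 9 θ)‖) := by
            gcongr
        _ = _ := by ring
    · apply Continuous.intervalIntegrable
      have := hf.continuous
      fun_prop
  calc (2 * Real.pi)⁻¹ * ‖_‖ ≤ (2 * Real.pi)⁻¹ * ∫ θ in (0:ℝ)..(2 * Real.pi), 9 * ‖f (circleMap 0 9 θ)‖ := by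
        gcongr
    _ = _ := by
        rw [intervalIntegral.integral_const_mul]
        ring

lemma mean_sq {g : ℝ → ℝ} (hg : Continuous g) :
    ((2 * Real.pi)⁻¹ * ∫ θ in (0:ℝ)..(2 * Real.pi), g θ) ^ 2 ≤
      (2 * Real.pi)⁻¹ * ∫ θ in (0:ℝ)..(2 * Real.pi), g θ ^ 2 := by
  have hpi := Real.pi_pos
  set m := (2 * Real.pi)⁻¹ * ∫ θ in (0:ℝ)..(2 * Real.pi), g θ with hm
  have h1 : 0 ≤ ∫ θ in (0:ℝ)..(2 * Real.pi), (g θ - m) ^ 2 :=
    intervalIntegral.integral_nonneg (by positivity) fun θ _ => sq_nonneg _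
  have h2 : ∫ θ in (0:ℝ)..(2 * Real.pi), (g θ - m) ^ 2 =
      (∫ θ in (0:ℝ)..(2 * Real.pi), g θ ^ 2) - 2 * m * (∫ θ in (0:ℝ)..(2 * Real.pi), g θ) + 2 * Real.pi * m ^ 2 := by
    have e : ∀ θ, (g θ - m) ^ 2 = g θ ^ 2 - 2 * m * g θ + m ^ 2 := fun θ => by ring
    simp_rw [e]
    rw [intervalIntegral.integral_add, intervalIntegral.integral_sub, intervalIntegral.integral_const_mul,
      intervalIntegral.integral_const, smul_eq_mul, sub_zero]
    all_goals exact Continuous.intervalIntegrable (by fun_prop) _ _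
  have h3 : ∫ θ in (0:ℝ)..(2 * Real.pi), g θ = 2 * Real.pi * m := by
    rw [hm]; field_simp
  rw [h2, h3] at h1
  rw [inv_mul_eq_div, le_div_iff₀ (by positivity)]
  nlinarith

theorem t_CIR : P_CIR := by
  intro G hG hGd
  have hpi := Real.pi_pos
  have hc : Continuous (Function.uncurry fun (t θ : ℝ) => ‖G t (circleMap 0 9 θ)‖ ^ 2) := by
    have h1 : Continuous (fun p : ℝ × ℝ => G p.1 (circleMap 0 9 p.2)) :=
      hG.comp (continuous_fst.prodMk ((continuous_circleMap 0 9).comp continuous_snd))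
    exact h1.norm.pow 2
  refine ⟨?_, ?_, ?_⟩
  · unfold CA
    have := intervalIntegral.continuous_parametric_intervalIntegral_of_continuous' (μ := volume) hc 0 (2 * Real.pi)
    exact (this.const_mul _).const_mul _
  · intro t z hz
    unfold CA
    have h1 := cauchy_bound (hGd t) hz
    have hcont : Continuous fun θ : ℝ => ‖G t (circleMap 0 9 θ)‖ :=
      ((hGd t).continuous.comp (continuous_circleMap 0 9)).norm
    have h2 := mean_sq hcont
    have h0 : 0 ≤ (2 * Real.pi)⁻¹ * ∫ θ in (0:ℝ)..(2 * Real.pi), ‖G t (circleMap 0 9 θ)‖ :=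
      mul_nonneg (by positivity) (intervalIntegral.integral_nonneg (by positivity) fun θ _ => norm_nonneg _)
    calc ‖G t z‖ ^ 2 ≤ (9 * ((2 * Real.pi)⁻¹ * ∫ θ in (0:ℝ)..(2 * Real.pi), ‖G t (circleMap 0 9 θ)‖)) ^ 2 :=
          pow_le_pow_left₀ (norm_nonneg _) h1 2
      _ = 81 * ((2 * Real.pi)⁻¹ * ∫ θ in (0:ℝ)..(2 * Real.pi), ‖G t (circleMap 0 9 θ)‖) ^ 2 := by ring
      _ ≤ _ := by gcongr
  · intro T1 T2 B hT hB
    unfold CA
    rw [intervalIntegral.integral_const_mul, intervalIntegral.integral_const_mul]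
    have hsw : ∫ t in T1..T2, ∫ θ in (0:ℝ)..(2 * Real.pi), ‖G t (circleMap 0 9 θ)‖ ^ 2 =
        ∫ θ in (0:ℝ)..(2 * Real.pi), ∫ t in T1..T2, ‖G t (circleMap 0 9 θ)‖ ^ 2 := by
      apply intervalIntegral_intervalIntegral_swap
      have hK : IsCompact (Set.uIcc T1 T2 ×ˢ Set.uIcc (0:ℝ) (2 * Real.pi)) := isCompact_uIcc.prod isCompact_uIcc
      exact (hc.continuousOn.integrableOn_compact hK).mono_set
        (Set.prod_mono Set.uIoc_subset_uIcc Set.uIoc_subset_uIcc)
    rw [hsw]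
    have h1 : ∫ θ in (0:ℝ)..(2 * Real.pi), ∫ t in T1..T2, ‖G t (circleMap 0 9 θ)‖ ^ 2 ≤
        ∫ θ in (0:ℝ)..(2 * Real.pi), B := by
      refine intervalIntegral.integral_mono_on (by positivity) ?_ (by simp) hB
      apply Continuous.intervalIntegrable
      have hc' : Continuous (Function.uncurry fun (θ t : ℝ) => ‖G t (circleMap 0 9 θ)‖ ^ 2) :=
        hc.comp continuous_swap
      exact intervalIntegral.continuous_parametric_intervalIntegral_of_continuous' hc' T1 T2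
    rw [intervalIntegral.integral_const, smul_eq_mul, sub_zero] at h1
    calc 81 * ((2 * Real.pi)⁻¹ * _) ≤ 81 * ((2 * Real.pi)⁻¹ * (2 * Real.pi * B)) := by gcongr
      _ = 81 * B := by field_simp

end Pool.Agent.Q178.CD
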