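import Pool.Agent.Q276.CD.Stm2
import Pool.Agent.Q251.CD.Rem

set_option autoImplicit false

/-! Job LOC of project CD: the set where an analytic function is small. -/

namespace Pool.Agent.Q178.CD

open MeasureTheory Pool.Agent.Q276.CD

theorem t_LOC : P_LOC := by
  obtain ⟨C, hC1, hC⟩ := Pool.Agent.Q251.CD.t_REM
  refine ⟨4 * C, by linarith, ?_⟩
  intro f m w a hf hm ha hb h0
  set E : Set ℝ := {x : ℝ | x ∈ Set.Icc (-1:ℝ) 1 ∧ ‖f (x : ℂ)‖ ≤ a * Real.exp (-w)} with hE
  have hEs : E ⊆ Set.Icc (-1) 1 := fun x hx => hx.1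
  have hcont : ContinuousOn (fun x : ℝ => ‖f (x : ℂ)‖) (Set.Icc (-1:ℝ) 1) := by
    refine ContinuousOn.norm ?_
    refine hf.continuousOn.comp (Complex.continuous_ofReal.continuousOn) ?_
    intro x hx
    rw [Metric.mem_ball, dist_zero_right, Complex.norm_real, Real.norm_eq_abs]
    have : |x| ≤ 1 := abs_le.2 hx
    linarith
  have hclosed : IsClosed E := by
    have := hcont.preimage_isClosed_of_isClosed isClosed_Icc (isClosed_Iic (a := a * Real.exp (-w)))
    have hEq : E = Set.Icc (-1:ℝ) 1 ∩ (fun x : ℝ => ‖f (x : ℂ)‖) ⁻¹' Set.Iic (a * Real.exp (-w)) := by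
      ext x
      exact Iff.rfl
    rw [hEq]
    exact this
  have hmeas : MeasurableSet E := hclosed.measurableSet
  have hfin : volume E ≠ ⊤ := by
    refine ne_top_of_le_ne_top ?_ (measure_mono hEs)
    rw [Real.volume_Icc]
    exact ENNReal.ofReal_ne_top
  have he2 : volume.real E ≤ 2 := by
    have h1 : volume.real E ≤ volume.real (Set.Icc (-1:ℝ) 1) :=
      measureReal_mono hEs (by rw [Real.volume_Icc]; exact ENNReal.ofReal_ne_top)
    rw [Real.volume_real_Icc_of_le (by norm_num)] at h1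
    linarith
  set e := volume.real E with hedef
  by_cases he0 : e = 0
  · rw [he0]; positivity
  have he : 0 < e := lt_of_le_of_ne measureReal_nonneg (Ne.symm he0)
  rcases le_total w 0 with hw | hw
  · have h1 : 1 ≤ Real.exp (-(w / (2 * m + 5))) := by
      apply Real.one_le_exp
      have : w / (2 * m + 5) ≤ 0 := div_nonpos_of_nonpos_of_nonneg hw (by linarith)
      linarith
    nlinarith
  set n : ℕ := ⌈(m + 2) / Real.log 2⌉₊ with hn
  have hl2 : 0 < Real.log 2 := Real.log_pos (by norm_num)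
  have hl2' := Real.log_two_gt_d9
  have hn1 : (m + 2) / Real.log 2 ≤ n := Nat.le_ceil _
  have hn2 : (n : ℝ) < (m + 2) / Real.log 2 + 1 := Nat.ceil_lt_add_one (by positivity)
  have hn3 : (n : ℝ) + 1 ≤ 2 * m + 5 := by
    have : (m + 2) / Real.log 2 ≤ (m + 2) * 1.4428 := by
      rw [div_le_iff₀ hl2]
      nlinarith
    linarith
  have hE1 : ENNReal.ofReal e ≤ volume E := by
    rw [hedef, Measure.real, ENNReal.ofReal_toReal hfin]
  have key := hC f (Real.exp m * a) (a * Real.exp (-w)) e E n hf hb he hmeas hEs hE1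
    (fun x hx => hx.2) (-Complex.I) (by simp)
  have h2 : Real.exp m * (1 / 2 : ℝ) ^ n ≤ 1 / 4 := by
    have h3 : (1 / 2 : ℝ) ^ n = Real.exp (-(n * Real.log 2)) := by
      rw [one_div, inv_pow, ← Real.exp_log (show (0:ℝ) < 2 by norm_num), ← Real.exp_nat_mul, ← Real.exp_neg,
        Real.log_exp]
    rw [h3, ← Real.exp_add]
    have h4 : m + 2 ≤ n * Real.log 2 := by
      rwa [div_le_iff₀ hl2] at hn1
    have h5 : Real.exp (m + -(n * Real.log 2)) ≤ Real.exp (-2) := Real.exp_le_exp.2 (by linarith)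
    have h6 : Real.exp (-2) ≤ 1 / 4 := by
      have h7 : Real.exp (-2) = (Real.exp 1)⁻¹ ^ 2 := by
        rw [← Real.exp_neg, ← Real.exp_nat_mul]; norm_num
      rw [h7]
      have h8 : (2 : ℝ) ≤ Real.exp 1 := by
        have := Real.exp_one_gt_d9
        linarith
      have h9 : (Real.exp 1)⁻¹ ≤ 2⁻¹ := inv_anti₀ (by norm_num) h8
      have h10 : (0:ℝ) ≤ (Real.exp 1)⁻¹ := by positivity
      calc (Real.exp 1)⁻¹ ^ 2 ≤ (2⁻¹ : ℝ) ^ 2 := pow_le_pow_left₀ h10 h9 2
        _ = 1 / 4 := by norm_num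
    exact h5.trans h6
  have h11 : (1 : ℝ) / 4 ≤ (C / e) ^ (n + 1) * Real.exp (-w) := by
    have h12 : a / 2 ≤ a * (1 / 4) + a * ((C / e) ^ (n + 1) * Real.exp (-w)) := by
      calc a / 2 ≤ _ := h0
        _ ≤ Real.exp m * a * (1 / 2) ^ n + (C / e) ^ (n + 1) * (a * Real.exp (-w)) := key
        _ = a * (Real.exp m * (1 / 2) ^ n) + a * ((C / e) ^ (n + 1) * Real.exp (-w)) := by ring
        _ ≤ _ := by gcongr
    have h13 : a * (1 / 4) ≤ a * ((C / e) ^ (n + 1) * Real.exp (-w)) := by linarith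
    exact le_of_mul_le_mul_left h13 ha
  by_contra hcon
  push Not at hcon
  have h14 : Real.exp (-(w / (n + 1))) ≤ Real.exp (-(w / (2 * m + 5))) := by
    apply Real.exp_le_exp.2
    have : w / (2 * m + 5) ≤ w / (n + 1) := div_le_div_of_nonneg_left hw (by positivity) hn3
    linarith
  have h15 : 4 * C * Real.exp (-(w / (n + 1))) < e := lt_of_le_of_lt (by gcongr) hcon
  have h16 : C / e < 1 / 4 * Real.exp (w / (n + 1)) := by
    rw [div_lt_iff₀ he]
    have h17 : Real.exp (w / (n + 1)) * Real.exp (-(w / (n + 1))) = 1 := by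
      rw [← Real.exp_add]; simp
    have h18 : 0 < Real.exp (w / (n + 1)) := Real.exp_pos _
    calc C = 1 / 4 * Real.exp (w / (n + 1)) * (4 * C * Real.exp (-(w / (n + 1)))) := by
          linear_combination (-C) * h17
      _ < _ := mul_lt_mul_of_pos_left h15 (by positivity)
  have h19 : (C / e) ^ (n + 1) < (1 / 4 * Real.exp (w / (n + 1))) ^ (n + 1) :=
    pow_lt_pow_left₀ h16 (by positivity) (by omega)
  have h20 : (1 / 4 * Real.exp (w / (n + 1))) ^ (n + 1) ≤ 1 / 4 * Real.exp w := by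
    rw [mul_pow, ← Real.exp_nat_mul]
    have h21 : ((n + 1 : ℕ) : ℝ) * (w / (n + 1)) = w := by
      push_cast
      field_simp
    rw [h21]
    have h22 : (1 / 4 : ℝ) ^ (n + 1) ≤ 1 / 4 := by
      rw [pow_succ]
      have : (1 / 4 : ℝ) ^ n ≤ 1 := pow_le_one₀ (by norm_num) (by norm_num)
      nlinarith
    exact mul_le_mul_of_nonneg_right h22 (Real.exp_pos _).le
  have h23 : (C / e) ^ (n + 1) * Real.exp (-w) < 1 / 4 := by
    calc (C / e) ^ (n + 1) * Real.exp (-w) < (1 / 4 * Real.exp w) * Real.exp (-w) :=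
          mul_lt_mul_of_pos_right (lt_of_lt_of_le h19 h20) (Real.exp_pos _)
      _ = 1 / 4 := by
          rw [mul_assoc, ← Real.exp_add]; simp
  linarith

end Pool.Agent.Q178.CD
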