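import Pool.Agent.Q276.CD.Stm2
import Pool.Agent.W184.MV

set_option autoImplicit false

/-! Job MVC of project CD: crude mean value theorem for short Dirichlet polynomials. -/

namespace Pool.Agent.Q178.CD

open MeasureTheory Finset Pool.Agent.Q276.CD

lemma cpow_cl {n : ℕ} (hn : 1 ≤ n) (t : ℝ) : (n : ℂ) ^ (-(cl t)) =
    (((n : ℝ) ^ (-(1 / 2) : ℝ) : ℝ) : ℂ) * Complex.exp (-((Real.log n : ℂ) * Complex.I) * t) := by
  have hn0 : (0 : ℝ) < n := by exact_mod_cast hn
  have hnC : (n : ℂ) ≠ 0 := by exact_mod_cast hn0.ne'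
  rw [Complex.cpow_def_of_ne_zero hnC, Real.rpow_def_of_pos hn0, Complex.ofReal_exp, ← Complex.exp_add]
  congr 1
  rw [← Complex.natCast_log]
  unfold cl
  push_cast
  ring

lemma int_exp {x A B : ℝ} (hx : x ≠ 0) :
    ‖∫ t in A..B, Complex.exp ((x * Complex.I) * t)‖ ≤ 2 / |x| := by
  have hc : (x : ℂ) * Complex.I ≠ 0 := mul_ne_zero (by exact_mod_cast hx) Complex.I_ne_zero
  rw [integral_exp_mul_complex hc, norm_div, norm_mul, Complex.norm_I, mul_one, Complex.norm_real,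
    Real.norm_eq_abs]
  refine div_le_div_of_nonneg_right ?_ (abs_nonneg x)
  refine (norm_sub_le _ _).trans ?_
  have h : ∀ t : ℝ, ‖Complex.exp (x * Complex.I * t)‖ = 1 := fun t => by
    have : (x : ℂ) * Complex.I * t = ((x * t : ℝ) : ℂ) * Complex.I := by push_cast; ring
    rw [this, Complex.norm_exp_ofReal_mul_I]
  rw [h, h]
  norm_num

lemma log_sep {Y m n : ℕ} (hm : m ∈ Icc 1 Y) (hn : n ∈ Icc 1 Y) (h : m ≠ n) :
    1 / (Y : ℝ) ≤ |Real.log m - Real.log n| := by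
  rw [mem_Icc] at hm hn
  have key : ∀ m n : ℕ, 1 ≤ m → n ≤ Y → m < n → 1 / (Y : ℝ) ≤ |Real.log m - Real.log n| := by
    intro m n hm hn h
    have h1 := Pool.Agent.W184.log_gap hm h
    have hn0 : (0 : ℝ) < n := by exact_mod_cast (by omega : 0 < n)
    have h2 : 1 / (Y : ℝ) ≤ ((n : ℝ) - m) / n := by
      have h3 : (1 : ℝ) ≤ (n : ℝ) - m := by
        have : (m : ℝ) + 1 ≤ n := by exact_mod_cast h
        linarith
      have hnY : (n : ℝ) ≤ Y := by exact_mod_cast hn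
      exact div_le_div₀ (by linarith) h3 hn0 hnY
    rw [abs_sub_comm]
    exact (h2.trans h1).trans (le_abs_self _)
  rcases lt_or_gt_of_ne h with h | h
  · exact key m n hm.1 hn.2 h
  · rw [abs_sub_comm]
    exact key n m hn.1 hm.2 h

theorem t_MVC : P_MVC := by
  intro a Y T1 T2 hT
  set c : ℕ → ℕ → ℂ := fun m n => a m * (starRingEnd ℂ) (a n) *
    ((((m : ℝ) ^ (-(1 / 2) : ℝ) * (n : ℝ) ^ (-(1 / 2) : ℝ) : ℝ)) : ℂ) with hc
  set x : ℕ → ℕ → ℝ := fun m n => Real.log n - Real.log m with hx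
  have hsq : ∀ t : ℝ, ((‖Dp a Y (cl t)‖ ^ 2 : ℝ) : ℂ) =
      ∑ m ∈ Icc 1 Y, ∑ n ∈ Icc 1 Y, c m n * Complex.exp ((x m n * Complex.I) * t) := by
    intro t
    rw [Complex.ofReal_pow, ← Complex.mul_conj', Dp, map_sum, sum_mul_sum]
    refine sum_congr rfl fun m hm => sum_congr rfl fun n hn => ?_
    rw [mem_Icc] at hm hn
    rw [map_mul, cpow_cl hm.1, cpow_cl hn.1, map_mul, Complex.conj_ofReal, ← Complex.exp_conj]
    have e1 : (starRingEnd ℂ) (-((Real.log n : ℂ) * Complex.I) * t) = ((Real.log n : ℂ) * Complex.I) * t := by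
      rw [map_mul, map_neg, map_mul, Complex.conj_ofReal, Complex.conj_I, Complex.conj_ofReal]
      ring
    rw [e1]
    have e2 : Complex.exp ((x m n * Complex.I) * t) =
        Complex.exp (-((Real.log m : ℂ) * Complex.I) * t) * Complex.exp (((Real.log n : ℂ) * Complex.I) * t) := by
      rw [← Complex.exp_add]
      congr 1
      simp only [hx]
      push_cast
      ring
    rw [e2, hc]
    push_cast
    ring
  have hint : ((∫ t in T1..T2, ‖Dp a Y (cl t)‖ ^ 2 : ℝ) : ℂ) =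
      ∑ m ∈ Icc 1 Y, ∑ n ∈ Icc 1 Y, c m n * ∫ t in T1..T2, Complex.exp ((x m n * Complex.I) * t) := by
    rw [← intervalIntegral.integral_ofReal, intervalIntegral.integral_congr (g := fun t =>
      ∑ m ∈ Icc 1 Y, ∑ n ∈ Icc 1 Y, c m n * Complex.exp ((x m n * Complex.I) * t)) (fun t _ => hsq t)]
    rw [intervalIntegral.integral_finsetSum fun m _ => Continuous.intervalIntegrable (by fun_prop) _ _]
    refine sum_congr rfl fun m _ => ?_
    rw [intervalIntegral.integral_finsetSum fun n _ => Continuous.intervalIntegrable (by fun_prop) _ _]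
    refine sum_congr rfl fun n _ => ?_
    rw [intervalIntegral.integral_const_mul]
  have hdiag : (((T2 - T1) * ∑ n ∈ Icc 1 Y, ‖a n‖ ^ 2 / (n:ℝ) : ℝ) : ℂ) =
      ∑ m ∈ Icc 1 Y, ∑ n ∈ Icc 1 Y, if n = m then c m n * ((T2 - T1 : ℝ) : ℂ) else 0 := by
    rw [mul_sum]
    push_cast
    refine sum_congr rfl fun m hm => ?_
    rw [sum_ite_eq' (Icc 1 Y) m (fun n => c m n * ((T2 : ℂ) - T1)), if_pos hm]
    have hm0 : (0 : ℝ) < m := by exact_mod_cast (mem_Icc.1 hm).1
    have e3 : (m : ℝ) ^ (-(1 / 2) : ℝ) * (m : ℝ) ^ (-(1 / 2) : ℝ) = (m : ℝ)⁻¹ := by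
      rw [← Real.rpow_add hm0, ← Real.rpow_neg_one]
      norm_num
    simp only [hc]
    rw [e3, Complex.mul_conj']
    push_cast
    ring
  have hcn : ∀ m ∈ Icc 1 Y, ∀ n ∈ Icc 1 Y, ‖c m n‖ ≤ ‖a m‖ * ‖a n‖ := by
    intro m hm n hn
    have hm1 : (1 : ℝ) ≤ m := by exact_mod_cast (mem_Icc.1 hm).1
    have hn1 : (1 : ℝ) ≤ n := by exact_mod_cast (mem_Icc.1 hn).1
    simp only [hc]
    rw [norm_mul, norm_mul, RCLike.norm_conj, Complex.norm_real, Real.norm_eq_abs, abs_of_nonneg (by positivity)]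
    have h1 : (m : ℝ) ^ (-(1 / 2) : ℝ) ≤ 1 := Real.rpow_le_one_of_one_le_of_nonpos hm1 (by norm_num)
    have h2 : (n : ℝ) ^ (-(1 / 2) : ℝ) ≤ 1 := Real.rpow_le_one_of_one_le_of_nonpos hn1 (by norm_num)
    calc ‖a m‖ * ‖a n‖ * ((m : ℝ) ^ (-(1 / 2) : ℝ) * (n : ℝ) ^ (-(1 / 2) : ℝ)) ≤ ‖a m‖ * ‖a n‖ * (1 * 1) := by
          gcongr
      _ = _ := by ring
  rw [← Real.norm_eq_abs, ← Complex.norm_real, Complex.ofReal_sub, hint, hdiag, ← sum_sub_distrib]
  simp_rw [← sum_sub_distrib]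
  have hterm : ∀ m ∈ Icc 1 Y, ∀ n ∈ Icc 1 Y,
      ‖c m n * (∫ t in T1..T2, Complex.exp ((x m n * Complex.I) * t)) -
        (if n = m then c m n * ((T2 - T1 : ℝ) : ℂ) else 0)‖ ≤ 4 * Y * (‖a m‖ * ‖a n‖) := by
    intro m hm n hn
    by_cases h : n = m
    · subst h
      rw [if_pos rfl]
      have h1 : x n n = 0 := by simp [hx]
      rw [h1]
      simp only [Complex.ofReal_zero, zero_mul, Complex.exp_zero]
      rw [intervalIntegral.integral_const]
      have : c n n * ((T2 - T1 : ℝ) • (1 : ℂ)) - c n n * ((T2 - T1 : ℝ) : ℂ) = 0 := by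
        rw [Complex.real_smul]; ring
      rw [this, norm_zero]
      positivity
    · rw [if_neg h, sub_zero, norm_mul]
      have hx0 : x m n ≠ 0 := by
        intro h0
        have h1 := log_sep hn hm h
        have h2 : |Real.log n - Real.log m| = 0 := by
          rw [abs_eq_zero]; exact h0
        rw [h2] at h1
        have hY : (0 : ℝ) < Y := by
          have := mem_Icc.1 hm
          exact_mod_cast (by omega : 0 < Y)
        have : 0 < 1 / (Y : ℝ) := by positivity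
        linarith
      have h3 := int_exp (A := T1) (B := T2) hx0
      have hY : (0 : ℝ) < Y := by
        have := mem_Icc.1 hm
        exact_mod_cast (by omega : 0 < Y)
      have h4 : 2 / |x m n| ≤ 2 * Y := by
        have h5 := log_sep hn hm h
        have h6 : 0 < |x m n| := abs_pos.2 hx0
        rw [div_le_iff₀ h6]
        have h7 : 1 / (Y : ℝ) ≤ |x m n| := h5
        calc (2 : ℝ) = 2 * Y * (1 / Y) := by field_simp
          _ ≤ _ := mul_le_mul_of_nonneg_left h7 (by positivity)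
      calc ‖c m n‖ * ‖∫ t in T1..T2, Complex.exp ((x m n * Complex.I) * t)‖ ≤
          (‖a m‖ * ‖a n‖) * (2 * Y) :=
            mul_le_mul (hcn m hm n hn) (h3.trans h4) (norm_nonneg _) (by positivity)
        _ ≤ _ := by nlinarith [mul_nonneg (mul_nonneg (norm_nonneg (a m)) (norm_nonneg (a n))) hY.le]
  refine (norm_sum_le _ _).trans ?_
  calc ∑ m ∈ Icc 1 Y, ‖∑ n ∈ Icc 1 Y, (c m n * (∫ t in T1..T2, Complex.exp ((x m n * Complex.I) * t)) -
        (if n = m then c m n * ((T2 - T1 : ℝ) : ℂ) else 0))‖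
      ≤ ∑ m ∈ Icc 1 Y, ∑ n ∈ Icc 1 Y, 4 * Y * (‖a m‖ * ‖a n‖) := by
        refine sum_le_sum fun m hm => (norm_sum_le _ _).trans (sum_le_sum fun n hn => hterm m hm n hn)
    _ = _ := by
        simp_rw [← mul_sum]
        rw [← sum_mul]
        ring

end Pool.Agent.Q178.CD
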